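import Pool.Agent.H301X.FR.Stmts

set_option autoImplicit false

open Real InnerProductSpace MeasureTheory Set Filter Topology
open scoped ContDiff RealInnerProductSpace

namespace Pool.Agent.H301X.FR

open InnerProductGeometry

theorem norm_sub_eq_two_sin {n : ℕ} (x y : EuclideanSpace ℝ (Fin n)) (hx : ‖x‖ = 1)
    (hy : ‖y‖ = 1) : ‖x - y‖ = 2 * Real.sin (angle x y / 2) := by
  have h0 : 0 ≤ Real.sin (angle x y / 2) :=
    Real.sin_nonneg_of_nonneg_of_le_pi (by linarith [angle_nonneg x y])
      (by linarith [angle_le_pi x y, Real.pi_pos])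
  have h1 : ‖x - y‖ ^ 2 = (2 * Real.sin (angle x y / 2)) ^ 2 := by
    have hc : Real.cos (angle x y) = ⟪x, y⟫ := by rw [cos_angle, hx, hy]; simp
    have h2 : Real.cos (angle x y) = 2 * Real.cos (angle x y / 2) ^ 2 - 1 := by
      rw [← Real.cos_two_mul]; congr 1; ring
    have h3 := Real.sin_sq_add_cos_sq (angle x y / 2)
    rw [norm_sub_sq_real, hx, hy, ← hc]
    nlinarith
  have h4 : 0 ≤ 2 * Real.sin (angle x y / 2) := by linarith
  exact (pow_left_inj₀ (norm_nonneg _) h4 (by norm_num)).1 h1

theorem taskAngle' : TaskAngle := by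
  intro n u hu h1 s t hst
  have hc : Continuous (fun t => ‖deriv u t‖) := (hu.continuous_deriv (le_refl _)).norm
  have huc : Continuous u := hu.continuous
  have hne : ∀ x, u x ≠ 0 := fun x h => by
    have := h1 x
    rw [h, norm_zero] at this
    norm_num at this
  have hac : ∀ a : ℝ, Continuous (fun x => angle (u a) (u x)) := by
    intro a
    rw [continuous_iff_continuousAt]
    intro x
    have k1 : ContinuousAt (fun y : EuclideanSpace ℝ (Fin n) × EuclideanSpace ℝ (Fin n) =>
        angle y.1 y.2) (u a, u x) := continuousAt_angle (hne a) (hne x)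
    have k2 : ContinuousAt (fun x => (u a, u x)) x := (by fun_prop : Continuous _).continuousAt
    exact ContinuousAt.comp (f := fun x => (u a, u x)) k1 k2
  refine image_le_of_liminf_slope_right_le_deriv_boundary (f := fun x => angle (u s) (u x))
    (B := fun x => ∫ y in s..x, ‖deriv u y‖) (B' := fun x => ‖deriv u x‖) (a := s) (b := t)
    (hac s).continuousOn ?_ ?_ ?_ ?_ ⟨hst, le_refl t⟩
  · simp only [intervalIntegral.integral_same]
    rw [angle_self (hne s)]
  · exact (intervalIntegral.continuous_primitive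
      (fun a b => hc.intervalIntegrable a b) s).continuousOn
  · intro x _
    exact (intervalIntegral.integral_hasDerivAt_right (hc.intervalIntegrable _ _)
      (hc.stronglyMeasurableAtFilter _ _) hc.continuousAt).hasDerivWithinAt
  · intro x _ r hr
    apply Eventually.frequently
    have hD : HasDerivAt u (deriv u x) x :=
      (hu.differentiable (by norm_num) x).hasDerivAt
    have hs : Tendsto (fun z => ‖slope u x z‖) (𝓝[>] x) (𝓝 ‖deriv u x‖) :=
      ((hasDerivAt_iff_tendsto_slope.1 hD).mono_left
        (nhdsWithin_mono x (fun z hz => ne_of_gt hz))).norm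
    have hθ : Tendsto (fun z => angle (u x) (u z)) (𝓝[>] x) (𝓝 0) := by
      have := (hac x).tendsto x
      rw [angle_self (hne x)] at this
      exact this.mono_left nhdsWithin_le_nhds
    have hq : Tendsto (fun z => ‖slope u x z‖ / (1 - (angle (u x) (u z) / 2) ^ 2 / 4))
        (𝓝[>] x) (𝓝 (‖deriv u x‖ / (1 - (0 / 2) ^ 2 / 4))) := by
      refine hs.div ?_ (by norm_num)
      exact (tendsto_const_nhds).sub (((hθ.div_const 2).pow 2).div_const 4)
    have hr' : ‖deriv u x‖ / (1 - (0 / 2) ^ 2 / 4) < r := by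
      simpa using hr
    filter_upwards [hq.eventually_lt_const hr', hθ.eventually_lt_const (by norm_num : (0:ℝ) < 1),
      self_mem_nhdsWithin] with z hz1 hz2 hz3
    have hzx : 0 < z - x := sub_pos.2 hz3
    refine lt_of_le_of_lt ?_ hz1
    set θ := angle (u x) (u z) with hθd
    have hθ0 : 0 ≤ θ := angle_nonneg _ _
    have htri : angle (u s) (u z) ≤ angle (u s) (u x) + θ := angle_le_angle_add_angle _ _ _
    have hsl : slope (fun x => angle (u s) (u x)) x z ≤ θ / (z - x) := by
      rw [slope_def_field]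
      exact div_le_div_of_nonneg_right (by linarith) hzx.le
    refine hsl.trans ?_
    have hnorm : ‖slope u x z‖ = ‖u x - u z‖ / (z - x) := by
      rw [slope_def_module, norm_smul, norm_inv, Real.norm_eq_abs, abs_of_pos hzx,
        norm_sub_rev]
      field_simp
    have hpos : 0 < 1 - (θ / 2) ^ 2 / 4 := by nlinarith
    rw [hnorm, norm_sub_eq_two_sin _ _ (h1 x) (h1 z), ← hθd, div_div, div_le_div_iff₀ hzx
      (mul_pos hzx hpos)]
    have hsin : θ / 2 - (θ / 2) ^ 3 / 4 ≤ Real.sin (θ / 2) := by
      rcases eq_or_lt_of_le hθ0 with h | h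
      · rw [← h]; simp
      · have k1 := Real.sin_gt_sub_cube (x := θ / 2) (by linarith)
        have k2 : 0 ≤ (θ / 2) ^ 3 := by positivity
        linarith
    have : θ * (1 - (θ / 2) ^ 2 / 4) ≤ 2 * Real.sin (θ / 2) := by nlinarith
    calc θ * ((z - x) * (1 - (θ / 2) ^ 2 / 4)) = (θ * (1 - (θ / 2) ^ 2 / 4)) * (z - x) := by ring
      _ ≤ 2 * Real.sin (θ / 2) * (z - x) := mul_le_mul_of_nonneg_right this hzx.le

end Pool.Agent.H301X.FR
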