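import Pool.Agent.H301X.FR.Stmts

set_option autoImplicit false

open Real InnerProductSpace MeasureTheory Set
open scoped ContDiff RealInnerProductSpace

namespace Pool.Agent.H301X.FR

open Pool.Agent.H110R3.Mu

variable {n : ℕ}

theorem iteratedDeriv_periodic (γ : ℝ → EuclideanSpace ℝ (Fin n)) (T : ℝ)
    (h : Function.Periodic γ T) (k : ℕ) : Function.Periodic (iteratedDeriv k γ) T := by
  intro t
  have h1 : (fun z => γ (z + T)) = γ := funext h
  have := iteratedDeriv_comp_add_const k γ T
  have h2 := congrFun this t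
  rw [h1] at h2
  exact h2.symm

theorem frenet_periodic (γ : ℝ → EuclideanSpace ℝ (Fin n)) (T : ℝ)
    (h : Function.Periodic γ T) (t : ℝ) : frenet γ (t + T) = frenet γ t := by
  unfold frenet
  congr 1
  funext k
  exact iteratedDeriv_periodic γ T h (k + 1) t

theorem norm_frenet (γ : ℝ → EuclideanSpace ℝ (Fin n)) (hnd : IsNondegenerate γ) (t : ℝ)
    (k : Fin n) : ‖frenet γ t k‖ = 1 := by
  unfold frenet
  exact gramSchmidtNormed_unit_length k (hnd t)

theorem main (hF : FenchelStatement) (hS : TaskSmooth) (hFi : TaskFirst) (hK : TaskKappa)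
    (hn : 4 ≤ n) (γ : ℝ → EuclideanSpace ℝ (Fin n)) (hc : IsClosedCurve γ)
    (hnd : IsNondegenerate γ) : 2 * π < frameLength γ := by
  have h0 : 0 < n := by omega
  obtain ⟨hpos, hfirst⟩ := hFi n h0 γ hc.1 hnd
  have hpi : (0 : ℝ) < 2 * π := by positivity
  set u : ℝ → EuclideanSpace ℝ (Fin n) := fun t => frenet γ t ⟨0, h0⟩ with hu
  have huS : ContDiff ℝ ∞ u := hS n γ hc.1 hnd ⟨0, h0⟩
  have hu1 : ContDiff ℝ 1 u := huS.of_le (by exact_mod_cast le_top)
  have hγ1 : ContDiff ℝ 1 γ := hc.1.of_le (by exact_mod_cast le_top)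
  have hγ'c : Continuous (deriv γ) := hγ1.continuous_deriv (le_refl _)
  have hper : u (2 * π) = u 0 := by
    have := frenet_periodic γ (2 * π) hc.2 0
    rw [zero_add] at this
    simp only [hu, this]
  have hint : (∫ t in (0 : ℝ)..(2 * π), ‖deriv γ t‖ • u t) = 0 := by
    have h1 : (fun t => ‖deriv γ t‖ • u t) = deriv γ := funext hfirst
    rw [h1, intervalIntegral.integral_deriv_eq_sub]
    · have := hc.2 0
      rw [zero_add] at this
      rw [this, sub_self]
    · intro x _
      exact (hγ1.differentiable (by norm_num)) x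
    · exact hγ'c.intervalIntegrable _ _
  have hFen := hF n u (fun t => ‖deriv γ t‖) hu1 (fun t => norm_frenet γ hnd t _) hper
    hγ'c.norm hpos hint
  refine lt_of_le_of_lt hFen ?_
  unfold frameLength
  have hkc : ∀ i, Continuous (kappa γ i) := by
    intro i
    unfold kappa
    by_cases h : i + 1 < n
    · simp only [h, dif_pos]
      have hA : ContDiff ℝ 1 (fun s => frenet γ s ⟨i, Nat.lt_of_succ_lt h⟩) :=
        (hS n γ hc.1 hnd _).of_le (by exact_mod_cast le_top)
      have hB : Continuous (fun t => frenet γ t ⟨i + 1, h⟩) :=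
        (hS n γ hc.1 hnd _).continuous
      refine Continuous.div ?_ hγ'c.norm (fun t => (hpos t).ne')
      exact (hA.continuous_deriv (le_refl _)).inner hB
    · simp only [h, dif_neg, not_false_eq_true]
      exact continuous_const
  have hptw : ∀ t, ‖deriv u t‖ <
      √(∑ i ∈ Finset.range (n - 1), kappa γ i t ^ 2) * ‖deriv γ t‖ := by
    intro t
    obtain ⟨h1, h2⟩ := hK hS hFi n (by omega) γ hc.1 hnd t
    have h1' : ‖deriv u t‖ = |kappa γ 0 t| * ‖deriv γ t‖ := h1
    rw [h1']
    refine mul_lt_mul_of_pos_right ?_ (hpos t)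
    rw [← Real.sqrt_sq_eq_abs]
    refine Real.sqrt_lt_sqrt (sq_nonneg _) ?_
    have hsub : ({0, 1} : Finset ℕ) ⊆ Finset.range (n - 1) := by
      intro x hx
      simp only [Finset.mem_insert, Finset.mem_singleton] at hx
      rw [Finset.mem_range]
      omega
    calc kappa γ 0 t ^ 2 < kappa γ 0 t ^ 2 + kappa γ 1 t ^ 2 := by
          have : 0 < kappa γ 1 t ^ 2 := by positivity
          linarith
      _ = ∑ i ∈ ({0, 1} : Finset ℕ), kappa γ i t ^ 2 := by
          rw [Finset.sum_pair (by norm_num)]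
      _ ≤ _ := Finset.sum_le_sum_of_subset_of_nonneg hsub (fun i _ _ => sq_nonneg _)
  have hc1 : Continuous (fun t => ‖deriv u t‖) :=
    (hu1.continuous_deriv (le_refl _)).norm
  have hc2 : Continuous (fun t => √(∑ i ∈ Finset.range (n - 1), kappa γ i t ^ 2) *
      ‖deriv γ t‖) := by
    refine Continuous.mul (Continuous.sqrt ?_) hγ'c.norm
    exact continuous_finsetSum _ (fun i _ => (hkc i).pow 2)
  exact intervalIntegral.integral_lt_integral_of_continuousOn_of_le_of_exists_lt hpi
    hc1.continuousOn hc2.continuousOn (fun t _ => (hptw t).le)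
    ⟨0, ⟨le_refl _, hpi.le⟩, hptw 0⟩

end Pool.Agent.H301X.FR
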