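import Pool.Agent.H301X.FR.Stmts

set_option autoImplicit false

open Real InnerProductSpace MeasureTheory Set
open scoped ContDiff RealInnerProductSpace

namespace Pool.Agent.H301X.FR

open InnerProductGeometry

theorem taskFenchel' : TaskFenchel := by
  intro hA n u ρ hu h1 hper hρ hpos hint
  have hpi : (0 : ℝ) ≤ 2 * π := by positivity
  have hpi' : (0 : ℝ) < 2 * π := by positivity
  have hc : Continuous (fun t => ‖deriv u t‖) := (hu.continuous_deriv (le_refl _)).norm
  have hII : ∀ a b : ℝ, IntervalIntegrable (fun t => ‖deriv u t‖) volume a b :=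
    fun a b => hc.intervalIntegrable a b
  set L := ∫ t in (0 : ℝ)..(2 * π), ‖deriv u t‖ with hL
  have hL0 : 0 ≤ L := intervalIntegral.integral_nonneg hpi (fun t _ => norm_nonneg _)
  have hFc : Continuous (fun b => ∫ t in (0 : ℝ)..b, ‖deriv u t‖) :=
    intervalIntegral.continuous_primitive (fun a b => hII a b) 0
  have hiv : L / 2 ∈ (fun b => ∫ t in (0 : ℝ)..b, ‖deriv u t‖) '' Set.Icc 0 (2 * π) := by
    apply intermediate_value_Icc hpi hFc.continuousOn
    simp only [intervalIntegral.integral_same]
    constructor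
    · linarith
    · show L / 2 ≤ L
      linarith
  obtain ⟨b, hb, hbL⟩ := hiv
  simp only at hbL
  have hbL' : ∫ t in b..(2 * π), ‖deriv u t‖ = L / 2 := by
    have := intervalIntegral.integral_add_adjacent_intervals (hII 0 b) (hII b (2 * π))
    rw [← hL, hbL] at this
    linarith
  -- the point t0
  have huc : Continuous u := hu.continuous
  obtain ⟨t0, ht0, hle⟩ : ∃ t0 ∈ Set.Icc (0 : ℝ) (2 * π), ⟪u t0, u 0 + u b⟫ ≤ 0 := by
    by_contra hcon
    push Not at hcon
    have hci : Continuous (fun t => ρ t * ⟪u t, u 0 + u b⟫) :=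
      hρ.mul (huc.inner continuous_const)
    have h2 : 0 < ∫ t in (0 : ℝ)..(2 * π), ρ t * ⟪u t, u 0 + u b⟫ :=
      intervalIntegral.intervalIntegral_pos_of_pos_on (hci.intervalIntegrable _ _)
        (fun t ht => mul_pos (hpos t) (hcon t ⟨ht.1.le, ht.2.le⟩)) hpi'
    have h3 : ∫ t in (0 : ℝ)..(2 * π), ρ t * ⟪u t, u 0 + u b⟫ =
        ⟪u 0 + u b, ∫ t in (0 : ℝ)..(2 * π), ρ t • u t⟫ := by
      have := (innerSL ℝ (u 0 + u b)).intervalIntegral_comp_comm
        (μ := volume) (a := 0) (b := 2 * π) (f := fun t => ρ t • u t)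
        ((hρ.smul huc).intervalIntegrable _ _)
      simp only [innerSL_apply_apply] at this
      rw [← this]
      refine intervalIntegral.integral_congr fun t _ => ?_
      simp only [inner_smul_right]
      rw [real_inner_comm]
    rw [h3, hint, inner_zero_right] at h2
    exact lt_irrefl _ h2
  have hangle : π ≤ angle (u 0) (u t0) + angle (u t0) (u b) := by
    have e1 : ⟪u t0, u 0⟫ ≤ -⟪u t0, u b⟫ := by
      rw [inner_add_right] at hle
      linarith
    have c1 : Real.cos (angle (u 0) (u t0)) = ⟪u t0, u 0⟫ := by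
      rw [cos_angle, h1, h1, real_inner_comm]; simp
    have c2 : Real.cos (angle (u t0) (u b)) = ⟪u t0, u b⟫ := by
      rw [cos_angle, h1, h1]; simp
    by_contra hlt
    push Not at hlt
    have k1 : angle (u 0) (u t0) < π - angle (u t0) (u b) := by linarith
    have k2 := Real.cos_lt_cos_of_nonneg_of_le_pi (angle_nonneg (u 0) (u t0))
      (by linarith [angle_nonneg (u t0) (u b)]) k1
    rw [Real.cos_pi_sub, c1, c2] at k2
    linarith
  have hkey : π ≤ L / 2 := by
    rcases le_total t0 b with h | h
    · have a1 := hA n u hu h1 0 t0 ht0.1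
      have a2 := hA n u hu h1 t0 b h
      have a3 := intervalIntegral.integral_add_adjacent_intervals (hII 0 t0) (hII t0 b)
      linarith
    · have a1 := hA n u hu h1 b t0 h
      have a2 := hA n u hu h1 t0 (2 * π) ht0.2
      have a3 := intervalIntegral.integral_add_adjacent_intervals (hII b t0) (hII t0 (2 * π))
      rw [hper] at a2
      rw [angle_comm] at a1 a2
      linarith
  linarith

end Pool.Agent.H301X.FR
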