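import Pool.Agent.H301X.FR.Stmts

set_option autoImplicit false

open Real InnerProductSpace MeasureTheory Set
open scoped ContDiff RealInnerProductSpace

namespace Pool.Agent.H301X.FR

open Pool.Agent.H110R3.Mu

theorem taskFirst' : TaskFirst := by
  intro n h0 γ hγ hnd
  have hne : ∀ t, deriv γ t ≠ 0 := by
    intro t
    have := (hnd t).ne_zero ⟨0, h0⟩
    simpa [iteratedDeriv_one] using this
  refine ⟨fun t => norm_pos_iff.2 (hne t), fun t => ?_⟩
  unfold frenet gramSchmidtNormed
  have h1 : gramSchmidt ℝ (fun k : Fin n => iteratedDeriv (k + 1) γ t) ⟨0, h0⟩ = deriv γ t := by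
    rw [gramSchmidt_def]
    have : Finset.Iio (⟨0, h0⟩ : Fin n) = ∅ := by
      ext x
      simp only [Finset.mem_Iio, Finset.notMem_empty, iff_false, not_lt]
      exact Fin.mk_le_of_le_val (Nat.zero_le _)
    rw [this]
    simp [iteratedDeriv_one]
  rw [h1]
  simp only [RCLike.ofReal_real_eq_id, id_eq]
  rw [smul_smul, mul_inv_cancel₀ (norm_ne_zero_iff.2 (hne t)), one_smul]

end Pool.Agent.H301X.FR
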