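import Pool.Agent.H301X.FR.Stmts

set_option autoImplicit false

open Real InnerProductSpace MeasureTheory Set
open scoped ContDiff RealInnerProductSpace

namespace Pool.Agent.H301X.FR

open Pool.Agent.H110R3.Mu

theorem smooth_iter2 {n : ℕ} (γ : ℝ → EuclideanSpace ℝ (Fin n)) (h : ContDiff ℝ ∞ γ) (k : ℕ) :
    ContDiff ℝ ∞ (iteratedDeriv k γ) := by
  rw [iteratedDeriv_eq_iterate]
  exact ContDiff.iterate_deriv k h

theorem hasDerivAt_iter {n : ℕ} (γ : ℝ → EuclideanSpace ℝ (Fin n)) (h : ContDiff ℝ ∞ γ) (k : ℕ)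
    (t : ℝ) : HasDerivAt (iteratedDeriv k γ) (iteratedDeriv (k + 1) γ t) t := by
  rw [iteratedDeriv_succ]
  exact ((smooth_iter2 γ h k).differentiable (by simp) t).hasDerivAt

theorem inner_frenet_of_lt {n : ℕ} (γ : ℝ → EuclideanSpace ℝ (Fin n)) (t : ℝ) (i j : Fin n)
    (hij : i < j) : ⟪frenet γ t j, iteratedDeriv (i + 1) γ t⟫ = 0 := by
  unfold frenet gramSchmidtNormed
  have := gramSchmidt_inv_triangular (𝕜 := ℝ) (fun k : Fin n => iteratedDeriv (k + 1) γ t) hij
  simp only [RCLike.ofReal_real_eq_id, id_eq]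
  rw [real_inner_smul_left, this, mul_zero]

theorem inner_frenet_self {n : ℕ} (γ : ℝ → EuclideanSpace ℝ (Fin n)) (hnd : IsNondegenerate γ)
    (t : ℝ) (j : Fin n) : ⟪frenet γ t j, iteratedDeriv (j + 1) γ t⟫ ≠ 0 := by
  have hne := gramSchmidt_ne_zero (𝕜 := ℝ) j (hnd t)
  unfold frenet gramSchmidtNormed
  simp only [RCLike.ofReal_real_eq_id, id_eq]
  rw [real_inner_smul_left]
  have h2 : ⟪gramSchmidt ℝ (fun k : Fin n => iteratedDeriv (k + 1) γ t) j,
      iteratedDeriv (j + 1) γ t⟫ =
      ⟪gramSchmidt ℝ (fun k : Fin n => iteratedDeriv (k + 1) γ t) j,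
      gramSchmidt ℝ (fun k : Fin n => iteratedDeriv (k + 1) γ t) j⟫ := by
    have h3 := gramSchmidt_def' ℝ (fun k : Fin n => iteratedDeriv (k + 1) γ t) j
    have h4 : ⟪gramSchmidt ℝ (fun k : Fin n => iteratedDeriv (k + 1) γ t) j,
        ∑ i ∈ Finset.Iio j, (ℝ ∙ gramSchmidt ℝ (fun k : Fin n => iteratedDeriv (k + 1) γ t)
          i).starProjection (iteratedDeriv (j + 1) γ t)⟫ = 0 := by
      rw [inner_sum]
      refine Finset.sum_eq_zero fun i hi => ?_
      rw [Submodule.starProjection_singleton, inner_smul_right,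
        gramSchmidt_orthogonal ℝ _ (ne_of_gt (Finset.mem_Iio.1 hi)), mul_zero]
    calc ⟪gramSchmidt ℝ (fun k : Fin n => iteratedDeriv (k + 1) γ t) j,
          iteratedDeriv (j + 1) γ t⟫ = ⟪gramSchmidt ℝ (fun k : Fin n => iteratedDeriv (k + 1) γ t) j,
          gramSchmidt ℝ (fun k : Fin n => iteratedDeriv (k + 1) γ t) j +
          ∑ i ∈ Finset.Iio j, (ℝ ∙ gramSchmidt ℝ (fun k : Fin n => iteratedDeriv (k + 1) γ t)
          i).starProjection (iteratedDeriv (j + 1) γ t)⟫ := congrArg _ h3
      _ = _ := by rw [inner_add_right, h4, add_zero]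
  rw [h2, real_inner_self_eq_norm_sq]
  have h5 := norm_pos_iff.2 hne
  positivity

theorem taskKappa' : TaskKappa := by
  intro hS hFi n h3 γ hγ hnd t
  have h0 : 0 < n := by omega
  obtain ⟨hpos, hfirst⟩ := hFi n h0 γ hγ hnd
  have hon : Orthonormal ℝ (frenet γ t) := gramSchmidtNormed_orthonormal (hnd t)
  have hon' : ∀ s, Orthonormal ℝ (frenet γ s) := fun s => gramSchmidtNormed_orthonormal (hnd s)
  have hd : ∀ k : Fin n, HasDerivAt (fun s => frenet γ s k) (deriv (fun s => frenet γ s k) t) t :=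
    fun k => ((hS n γ hγ hnd k).differentiable (by simp) t).hasDerivAt
  -- derivative of orthogonality relations
  have hR : ∀ i j : Fin n, ⟪frenet γ t i, deriv (fun s => frenet γ s j) t⟫ +
      ⟪deriv (fun s => frenet γ s i) t, frenet γ t j⟫ = 0 := by
    intro i j
    have h1 := (hd i).inner ℝ (hd j)
    have h2 : (fun s => ⟪frenet γ s i, frenet γ s j⟫) = fun _ => if i = j then (1 : ℝ) else 0 := by
      funext s
      exact orthonormal_iff_ite.1 (hon' s) i j
    rw [h2] at h1
    exact h1.unique (hasDerivAt_const _ _)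
  -- derivative of `⟪e_j, v_i⟫ = 0` for `i < j`
  have hV : ∀ i j : Fin n, i < j → ⟪frenet γ t j, iteratedDeriv (i + 1 + 1) γ t⟫ +
      ⟪deriv (fun s => frenet γ s j) t, iteratedDeriv (i + 1) γ t⟫ = 0 := by
    intro i j hij
    have h1 := (hd j).inner ℝ (hasDerivAt_iter γ hγ (i + 1) t)
    have h2 : (fun s => ⟪frenet γ s j, iteratedDeriv (i + 1) γ s⟫) = fun _ => (0 : ℝ) :=
      funext fun s => inner_frenet_of_lt γ s i j hij
    rw [h2] at h1
    exact h1.unique (hasDerivAt_const _ _)
  set i0 : Fin n := ⟨0, h0⟩ with hi0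
  set i1 : Fin n := ⟨1, by omega⟩ with hi1
  set i2 : Fin n := ⟨2, by omega⟩ with hi2
  have hf0 : ‖deriv γ t‖ • frenet γ t i0 = iteratedDeriv ((i0 : ℕ) + 1) γ t := by
    rw [hfirst t]
    simp [hi0, iteratedDeriv_one]
  -- `e_j' ⟂ e_0` for `j ≥ 2`
  have hj0 : ∀ j : Fin n, i1 < j → ⟪deriv (fun s => frenet γ s j) t, frenet γ t i0⟫ = 0 := by
    intro j hj
    have h1 : i0 < j := lt_trans (by simp [hi0, hi1, Fin.lt_def]) hj
    have h2 := hV i0 j h1
    have h4 : ⟪frenet γ t j, iteratedDeriv ((i0 : ℕ) + 1 + 1) γ t⟫ = 0 :=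
      inner_frenet_of_lt γ t i1 j hj
    rw [h4, zero_add, ← hf0, inner_smul_right] at h2
    exact (mul_eq_zero.1 h2).resolve_left (hpos t).ne'
  constructor
  · -- (A)
    have hcard : Fintype.card (Fin n) = Module.finrank ℝ (EuclideanSpace ℝ (Fin n)) := by simp
    have hspan : (⊤ : Submodule ℝ (EuclideanSpace ℝ (Fin n))) ≤
        Submodule.span ℝ (Set.range (frenet γ t)) :=
      (hon.linearIndependent.span_eq_top_of_card_eq_finrank' hcard).ge
    let b := OrthonormalBasis.mk hon hspan
    have hb : ∀ i, b i = frenet γ t i := fun i => by simp [b]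
    have hsum := b.sum_sq_norm_inner_right (deriv (fun s => frenet γ s i0) t)
    rw [Finset.sum_eq_single i1] at hsum
    · have h5 : ‖deriv (fun s => frenet γ s i0) t‖ =
          |⟪deriv (fun s => frenet γ s i0) t, frenet γ t i1⟫| := by
        rw [hb, Real.norm_eq_abs, real_inner_comm] at hsum
        exact ((pow_left_inj₀ (abs_nonneg _) (norm_nonneg _) (by norm_num)).1 hsum).symm
      show ‖deriv (fun s => frenet γ s i0) t‖ = _
      rw [h5]
      unfold kappa
      have h6 : 0 + 1 < n := by omega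
      rw [dif_pos h6, abs_div, abs_of_pos (hpos t), div_mul_cancel₀ _ (hpos t).ne']
    · intro j _ hj
      rw [hb]
      have : ⟪frenet γ t j, deriv (fun s => frenet γ s i0) t⟫ = 0 := by
        rcases eq_or_ne j i0 with h | h
        · have h7 := hR i0 i0
          rw [real_inner_comm (frenet γ t i0)] at h7
          rw [h]
          rw [real_inner_comm] at h7 ⊢
          linarith
        · have h8 : i1 < j := by
            rw [Fin.lt_def]
            have a1 : (j : ℕ) ≠ 0 := fun h' => h (Fin.ext h')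
            have a2 : (j : ℕ) ≠ 1 := fun h' => hj (Fin.ext h')
            simp only [hi1]
            omega
          have h9 := hR j i0
          rw [hj0 j h8, add_zero] at h9
          exact h9
      rw [this]
      simp
    · intro h
      exact absurd (Finset.mem_univ _) h
  · -- (B)
    have h1 : 1 + 1 < n := by omega
    unfold kappa
    rw [dif_pos h1]
    refine div_ne_zero ?_ (hpos t).ne'
    intro hzero
    have hz : ⟪deriv (fun s => frenet γ s i1) t, frenet γ t i2⟫ = 0 := hzero
    have h12 : i1 < i2 := by simp [hi1, hi2, Fin.lt_def]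
    have h01 : i0 < i1 := by simp [hi0, hi1, Fin.lt_def]
    have k1 : ⟪deriv (fun s => frenet γ s i2) t, frenet γ t i1⟫ = 0 := by
      have := hR i2 i1
      rw [real_inner_comm, hz, zero_add] at this
      exact this
    have k0 := hj0 i2 h12
    -- v_1 in the span of e_0, e_1
    have k2 : ⟪deriv (fun s => frenet γ s i2) t, iteratedDeriv ((i1 : ℕ) + 1) γ t⟫ = 0 := by
      have hm : iteratedDeriv ((i1 : ℕ) + 1) γ t ∈ Submodule.span ℝ
          (gramSchmidt ℝ (fun k : Fin n => iteratedDeriv (k + 1) γ t) '' Set.Iic i1) :=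
        mem_span_gramSchmidt ℝ (fun k : Fin n => iteratedDeriv (k + 1) γ t) (le_refl i1)
      rw [← span_gramSchmidtNormed] at hm
      have hle : Submodule.span ℝ (gramSchmidtNormed ℝ
          (fun k : Fin n => iteratedDeriv (k + 1) γ t) '' Set.Iic i1) ≤
          (ℝ ∙ (deriv (fun s => frenet γ s i2) t))ᗮ := by
        rw [Submodule.span_le]
        rintro _ ⟨j, hj, rfl⟩
        rw [SetLike.mem_coe, Submodule.mem_orthogonal_singleton_iff_inner_right]
        show ⟪deriv (fun s => frenet γ s i2) t, frenet γ t j⟫ = 0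
        have hj' : (j : ℕ) ≤ 1 := hj
        rcases Nat.le_one_iff_eq_zero_or_eq_one.1 hj' with h | h
        · have : j = i0 := Fin.ext h
          rw [this]; exact k0
        · have : j = i1 := Fin.ext h
          rw [this]; exact k1
      exact (Submodule.mem_orthogonal_singleton_iff_inner_right).1 (hle hm)
    have k3 := hV i1 i2 h12
    rw [k2, add_zero] at k3
    exact inner_frenet_self γ hnd t i2 k3

end Pool.Agent.H301X.FR
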