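import Pool.Agent.H301X.FR.Stmts

set_option autoImplicit false

open Real InnerProductSpace MeasureTheory Set
open scoped ContDiff RealInnerProductSpace

namespace Pool.Agent.H301X.FR

open Pool.Agent.H110R3.Mu

theorem smooth_iter {n : ℕ} (γ : ℝ → EuclideanSpace ℝ (Fin n)) (h : ContDiff ℝ ∞ γ) (k : ℕ) :
    ContDiff ℝ ∞ (iteratedDeriv k γ) := by
  rw [iteratedDeriv_eq_iterate]
  exact ContDiff.iterate_deriv k h

theorem gs_smooth {n : ℕ} (γ : ℝ → EuclideanSpace ℝ (Fin n)) (h : ContDiff ℝ ∞ γ)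
    (hnd : IsNondegenerate γ) (m : ℕ) : ∀ k : Fin n, (k : ℕ) = m →
    ContDiff ℝ ∞ (fun t => gramSchmidt ℝ (fun k : Fin n => iteratedDeriv (k + 1) γ t) k) := by
  induction m using Nat.strong_induction_on with
  | _ m ih =>
    intro k hk
    have h1 : (fun t => gramSchmidt ℝ (fun k : Fin n => iteratedDeriv (k + 1) γ t) k) =
        fun t => iteratedDeriv (k + 1) γ t - ∑ i ∈ Finset.Iio k,
          (⟪gramSchmidt ℝ (fun k : Fin n => iteratedDeriv (k + 1) γ t) i,
            iteratedDeriv (k + 1) γ t⟫ /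
            ‖gramSchmidt ℝ (fun k : Fin n => iteratedDeriv (k + 1) γ t) i‖ ^ 2) •
            gramSchmidt ℝ (fun k : Fin n => iteratedDeriv (k + 1) γ t) i := by
      funext t
      rw [gramSchmidt_def]
      congr 1
      refine Finset.sum_congr rfl fun i _ => ?_
      rw [Submodule.starProjection_singleton]
      simp
    rw [h1]
    refine (smooth_iter γ h _).sub (ContDiff.sum fun i hi => ?_)
    have hi' : (i : ℕ) < m := by
      rw [Finset.mem_Iio] at hi
      rw [← hk]
      exact hi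
    have hg := ih i hi' i rfl
    have hq : ContDiff ℝ ∞ (fun t => ⟪gramSchmidt ℝ (fun k : Fin n => iteratedDeriv (k + 1) γ t) i,
            iteratedDeriv (k + 1) γ t⟫ /
            ‖gramSchmidt ℝ (fun k : Fin n => iteratedDeriv (k + 1) γ t) i‖ ^ 2) := by
      refine ContDiff.div (hg.inner ℝ (smooth_iter γ h _)) ((hg.norm_sq ℝ)) ?_
      intro t
      have := norm_pos_iff.2 (gramSchmidt_ne_zero i (hnd t))
      exact (pow_pos this 2).ne'
    exact hq.smul hg

theorem taskSmooth' : TaskSmooth := by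
  intro n γ h hnd k
  unfold frenet gramSchmidtNormed
  have hg := gs_smooth γ h hnd k k rfl
  have hne : ∀ t, gramSchmidt ℝ (fun k : Fin n => iteratedDeriv (k + 1) γ t) k ≠ 0 :=
    fun t => gramSchmidt_ne_zero k (hnd t)
  simp only [RCLike.ofReal_real_eq_id, id_eq]
  have hq : ContDiff ℝ ∞
      (fun t => ‖gramSchmidt ℝ (fun k : Fin n => iteratedDeriv (k + 1) γ t) k‖⁻¹) :=
    ContDiff.inv (ContDiff.norm ℝ hg hne) fun t => norm_ne_zero_iff.2 (hne t)
  exact hq.smul hg

end Pool.Agent.H301X.FR
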