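import Pool.Agent.H110R3.MuDefs

/-!
# Length of the Frenet frame of a closed nondegenerate curve (MP_f07be6_gt, Q2)
-/

set_option autoImplicit false

open Real InnerProductSpace MeasureTheory Set
open scoped ContDiff RealInnerProductSpace

namespace Pool.Agent.H301X.FR

open Pool.Agent.H110R3.Mu

variable {n : ℕ}

/-- The Frenet frame of the curve `γ` at `t`: Gram-Schmidt applied to `γ'(t), …, γ⁽ⁿ⁾(t)`. -/
noncomputable def frenet (γ : ℝ → EuclideanSpace ℝ (Fin n)) (t : ℝ) :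
    Fin n → EuclideanSpace ℝ (Fin n) :=
  gramSchmidtNormed ℝ (fun k : Fin n => iteratedDeriv (k + 1) γ t)

/-- The curvature `κ_{i+1}` (`0 ≤ i ≤ n - 2`) of the curve `γ`: the scalar product of `e_{i+2}` with
the derivative of `e_{i+1}` with respect to arc length (the vectors of the frame are numbered
`e_1, …, e_n`). -/
noncomputable def kappa (γ : ℝ → EuclideanSpace ℝ (Fin n)) (i : ℕ) (t : ℝ) : ℝ :=
  if h : i + 1 < n then
    ⟪deriv (fun s => frenet γ s ⟨i, Nat.lt_of_succ_lt h⟩) t, frenet γ t ⟨i + 1, h⟩⟫ /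
      ‖deriv γ t‖
  else 0

/-- The length `∫ (κ_1² + ⋯ + κ_{n-1}²)^{1/2} ds` of the Frenet frame of the closed curve `γ`. -/
noncomputable def frameLength (γ : ℝ → EuclideanSpace ℝ (Fin n)) : ℝ :=
  ∫ t in (0 : ℝ)..(2 * π), √(∑ i ∈ Finset.range (n - 1), kappa γ i t ^ 2) * ‖deriv γ t‖

/-- The angle between two points of a curve on the unit sphere is at most the length between
them. -/
def TaskAngle : Prop :=
  ∀ (n : ℕ) (u : ℝ → EuclideanSpace ℝ (Fin n)), ContDiff ℝ 1 u → (∀ t, ‖u t‖ = 1) →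
    ∀ s t : ℝ, s ≤ t → InnerProductGeometry.angle (u s) (u t) ≤ ∫ x in s..t, ‖deriv u x‖

/-- Fenchel's theorem, for the tangent indicatrix. -/
def FenchelStatement : Prop :=
  ∀ (n : ℕ) (u : ℝ → EuclideanSpace ℝ (Fin n)) (ρ : ℝ → ℝ), ContDiff ℝ 1 u → (∀ t, ‖u t‖ = 1) →
    u (2 * π) = u 0 → Continuous ρ → (∀ t, 0 < ρ t) → (∫ t in (0 : ℝ)..(2 * π), ρ t • u t) = 0 →
    2 * π ≤ ∫ t in (0 : ℝ)..(2 * π), ‖deriv u t‖

def TaskFenchel : Prop := TaskAngle → FenchelStatement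

/-- The Frenet frame is smooth. -/
def TaskSmooth : Prop :=
  ∀ (n : ℕ) (γ : ℝ → EuclideanSpace ℝ (Fin n)), ContDiff ℝ ∞ γ → IsNondegenerate γ →
    ∀ k : Fin n, ContDiff ℝ ∞ (fun t => frenet γ t k)

/-- First vector of the frame. -/
def TaskFirst : Prop :=
  ∀ (n : ℕ) (h0 : 0 < n) (γ : ℝ → EuclideanSpace ℝ (Fin n)), ContDiff ℝ ∞ γ →
    IsNondegenerate γ → (∀ t, 0 < ‖deriv γ t‖) ∧
      ∀ t, ‖deriv γ t‖ • frenet γ t ⟨0, h0⟩ = deriv γ t

/-- The first curvature is the speed of the tangent indicatrix, and the second curvature does not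
vanish. -/
def TaskKappa : Prop :=
  TaskSmooth → TaskFirst →
  ∀ (n : ℕ) (h3 : 3 ≤ n) (γ : ℝ → EuclideanSpace ℝ (Fin n)), ContDiff ℝ ∞ γ →
    IsNondegenerate γ → ∀ t,
      ‖deriv (fun s => frenet γ s ⟨0, by omega⟩) t‖ = |kappa γ 0 t| * ‖deriv γ t‖ ∧
      kappa γ 1 t ≠ 0

end Pool.Agent.H301X.FR
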