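import Pool.Agent.H301X.FR.Stmts

set_option autoImplicit false

open Real InnerProductSpace MeasureTheory Set Filter Topology
open scoped ContDiff RealInnerProductSpace

namespace Pool.Agent.H301X.FR

namespace AngleAux

variable {n : ℕ}

theorem angle_unit {x y : EuclideanSpace ℝ (Fin n)} (hx : ‖x‖ = 1) (hy : ‖y‖ = 1) :
    InnerProductGeometry.angle x y = arccos ⟪x, y⟫ := by
  unfold InnerProductGeometry.angle
  rw [hx, hy, mul_one, div_one]

theorem angle_chord {x y : EuclideanSpace ℝ (Fin n)} (hx : ‖x‖ = 1) (hy : ‖y‖ = 1) :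
    InnerProductGeometry.angle x y = 2 * arcsin (‖y - x‖ / 2) := by
  rw [angle_unit hx hy]
  have h1 : ‖y - x‖ ^ 2 = 2 - 2 * ⟪x, y⟫ := by
    rw [norm_sub_sq_real, hx, hy, real_inner_comm]
    ring
  have h2 : ‖y - x‖ ≤ 2 := by
    have := norm_sub_le y x
    rw [hx, hy] at this
    linarith
  have h0 : 0 ≤ ‖y - x‖ := norm_nonneg _
  have h3 : cos (2 * arcsin (‖y - x‖ / 2)) = ⟪x, y⟫ := by
    rw [cos_two_mul, cos_arcsin, sq_sqrt]
    · rw [div_pow, h1]
      ring
    · nlinarith
  rw [← h3, arccos_cos]
  · have := arcsin_nonneg.2 (by linarith : 0 ≤ ‖y - x‖ / 2)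
    linarith
  · have := arcsin_le_pi_div_two (‖y - x‖ / 2)
    linarith

theorem chord_deriv (u : ℝ → EuclideanSpace ℝ (Fin n)) (x : ℝ) (v : EuclideanSpace ℝ (Fin n))
    (h : HasDerivAt u v x) : HasDerivWithinAt (fun z => ‖u z - u x‖) ‖v‖ (Ioi x) x := by
  rw [hasDerivWithinAt_iff_tendsto_slope' (by simp)]
  have h1 : Tendsto (slope u x) (𝓝[>] x) (𝓝 v) :=
    (hasDerivWithinAt_iff_tendsto_slope' (by simp)).1 h.hasDerivWithinAt
  refine h1.norm.congr' ?_
  filter_upwards [self_mem_nhdsWithin] with z hz
  have hz' : 0 < z - x := sub_pos.2 hz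
  simp only [slope, vsub_eq_sub, sub_self, norm_zero, sub_zero]
  rw [norm_smul, norm_inv, norm_of_nonneg hz'.le, smul_eq_mul]

theorem angle_deriv (u : ℝ → EuclideanSpace ℝ (Fin n)) (hu : ∀ t, ‖u t‖ = 1) (x : ℝ)
    (v : EuclideanSpace ℝ (Fin n)) (h : HasDerivAt u v x) :
    HasDerivWithinAt (fun z => InnerProductGeometry.angle (u x) (u z)) ‖v‖ (Ioi x) x := by
  have e : (fun z => InnerProductGeometry.angle (u x) (u z)) =
      (fun y => 2 * arcsin (y / 2)) ∘ (fun z => ‖u z - u x‖) := by
    funext z
    exact angle_chord (hu x) (hu z)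
  rw [e]
  have h0 : HasDerivAt (fun y : ℝ => 2 * arcsin (y / 2)) 1 ((fun z => ‖u z - u x‖) x) := by
    have h1 : HasDerivAt (fun y : ℝ => y / 2) (1 / 2) (‖u x - u x‖) := by
      exact (hasDerivAt_id _).div_const 2
    have h2 : HasDerivAt arcsin (1 / √(1 - (‖u x - u x‖ / 2) ^ 2)) (‖u x - u x‖ / 2) :=
      hasDerivAt_arcsin (by simp) (by simp)
    have h3 : HasDerivAt (fun y : ℝ => arcsin (y / 2))
        (1 / √(1 - (‖u x - u x‖ / 2) ^ 2) * (1 / 2)) (‖u x - u x‖) :=
      HasDerivAt.comp (h₂ := arcsin) (h := fun y : ℝ => y / 2) (‖u x - u x‖) h2 h1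
    refine (h3.const_mul 2).congr_deriv ?_
    simp
  have := h0.comp_hasDerivWithinAt x (chord_deriv u x v h)
  rw [one_mul] at this
  exact this

end AngleAux

open AngleAux

theorem taskAngle : TaskAngle := by
  intro n u hu hn s t hst
  have hd : ∀ x, HasDerivAt u (deriv u x) x := fun x =>
    (hu.differentiable (by norm_num)).differentiableAt.hasDerivAt
  have hdc : Continuous (fun x => ‖deriv u x‖) := (hu.continuous_deriv (by norm_num)).norm
  have hB : ∀ x, HasDerivAt (fun y => ∫ z in s..y, ‖deriv u z‖) ‖deriv u x‖ x := fun x =>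
    (hdc.integral_hasStrictDerivAt s x).hasDerivAt
  have hcont : Continuous (fun z => InnerProductGeometry.angle (u s) (u z)) := by
    have e : (fun z => InnerProductGeometry.angle (u s) (u z)) = fun z => arccos ⟪u s, u z⟫ := by
      funext z
      exact angle_unit (hn s) (hn z)
    rw [e]
    exact continuous_arccos.comp (continuous_const.inner hu.continuous)
  have key := image_le_of_liminf_slope_right_le_deriv_boundary
    (f := fun z => InnerProductGeometry.angle (u s) (u z)) (a := s) (b := t)
    hcont.continuousOn (B := fun y => ∫ z in s..y, ‖deriv u z‖) (B' := fun x => ‖deriv u x‖)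
    (by
      have hne : u s ≠ 0 := by
        intro h
        have := hn s
        rw [h, norm_zero] at this
        exact zero_ne_one this
      show InnerProductGeometry.angle (u s) (u s) ≤ ∫ z in s..s, ‖deriv u z‖
      rw [InnerProductGeometry.angle_self hne, intervalIntegral.integral_same])
    (fun x _ => (hB x).continuousAt.continuousWithinAt)
    (fun x _ => (hB x).hasDerivWithinAt)
    (by
      intro x _ r hr
      have h1 := (angle_deriv u hn x _ (hd x)).limsup_slope_le' (by simp) hr
      refine Eventually.frequently ?_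
      filter_upwards [h1, self_mem_nhdsWithin] with z hz hzx
      refine lt_of_le_of_lt ?_ hz
      have hz' : 0 < z - x := sub_pos.2 hzx
      have hne : u x ≠ 0 := by
        intro h
        have := hn x
        rw [h, norm_zero] at this
        exact zero_ne_one this
      simp only [slope, vsub_eq_sub, smul_eq_mul]
      apply mul_le_mul_of_nonneg_left _ (inv_nonneg.2 hz'.le)
      rw [InnerProductGeometry.angle_self hne]
      have := InnerProductGeometry.angle_le_angle_add_angle (u s) (u x) (u z)
      linarith)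
  exact key ⟨hst, le_refl t⟩

end Pool.Agent.H301X.FR
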